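import Pool.Agent.TH867.EC.Twist

/-! Many minimal models with full 2-torsion and small conductor (helper867). -/

set_option autoImplicit false

namespace Pool.Agent.TH867.EC

open Finset Pool.Agent.TH867.SR Pool.Agent.H925R.Szpiro

/-- the model with roots `x, y, -x-y` -/
def mA (p : ℕ × ℕ) : ℤ := (p.1 : ℤ) ^ 2 + p.1 * p.2 + (p.2 : ℤ) ^ 2

def mB (p : ℕ × ℕ) : ℤ := -((p.1 : ℤ) * p.2 * (p.1 + p.2))

/-- the square root of the discriminant -/
def mP (p : ℕ × ℕ) : ℕ := (p.2 - p.1) * (2 * p.1 + p.2) * (p.1 + 2 * p.2)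

theorem mD {p : ℕ × ℕ} (h : p.1 < p.2) : D (mA p) (mB p) = (mP p : ℤ) ^ 2 := by
  unfold D mA mB mP
  push_cast [Nat.cast_sub h.le]
  ring

theorem mcop {p : ℕ × ℕ} (hc : Nat.Coprime p.1 p.2) : IsCoprime (mA p) (mB p) := by
  obtain ⟨x, y⟩ := p
  have h : IsCoprime (x : ℤ) (y : ℤ) := Nat.isCoprime_iff_coprime.2 hc
  show IsCoprime ((x : ℤ) ^ 2 + x * y + (y : ℤ) ^ 2) (-((x : ℤ) * y * (x + y)))
  refine IsCoprime.neg_right (IsCoprime.mul_right (IsCoprime.mul_right ?_ ?_) ?_)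
  · have h3 : IsCoprime ((y : ℤ) ^ 2) (x : ℤ) := (IsCoprime.pow_right h).symm
    have h4 := IsCoprime.add_mul_left_left h3 ((x : ℤ) + y)
    have e : (y : ℤ) ^ 2 + x * (x + y) = (x : ℤ) ^ 2 + x * y + (y : ℤ) ^ 2 := by ring
    rwa [e] at h4
  · have h3 : IsCoprime ((x : ℤ) ^ 2) (y : ℤ) := IsCoprime.pow_left h
    have h4 := IsCoprime.add_mul_left_left h3 ((x : ℤ) + y)
    have e : (x : ℤ) ^ 2 + y * (x + y) = (x : ℤ) ^ 2 + x * y + (y : ℤ) ^ 2 := by ring
    rwa [e] at h4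
  · have h3 : IsCoprime ((x : ℤ) * y) ((x : ℤ) + y) := by
      refine IsCoprime.mul_left ?_ ?_
      · have := IsCoprime.add_mul_left_right h 1
        rwa [mul_one, add_comm] at this
      · have := IsCoprime.add_mul_left_right h.symm 1
        rwa [mul_one] at this
    have h4 : IsCoprime (-((x : ℤ) * y)) ((x : ℤ) + y) := h3.neg_left
    have h5 := IsCoprime.add_mul_left_left h4 ((x : ℤ) + y)
    have e : -((x : ℤ) * y) + (x + y) * (x + y) = (x : ℤ) ^ 2 + x * y + (y : ℤ) ^ 2 := by ring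
    rwa [e] at h5

theorem mfull (p : ℕ × ℕ) : FullS (mA p) (mB p) := by
  refine ⟨p.1, p.2, -((p.1 : ℚ) + p.2), fun x => ?_⟩
  unfold mA mB
  push_cast
  ring

theorem mP_pos {p : ℕ × ℕ} (h0 : 0 < p.1) (h : p.1 < p.2) : 0 < mP p := by
  unfold mP
  have : 0 < p.2 - p.1 := by omega
  positivity

theorem mmin {p : ℕ × ℕ} (h0 : 0 < p.1) (h : p.1 < p.2) (hc : Nat.Coprime p.1 p.2) :
    IsMin (mA p) (mB p) := by
  have hcop := mcop hc
  have hP := mP_pos h0 h
  refine ⟨by rw [mD h]; positivity, ?_⟩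
  intro u a' b' hu ha hb
  have hden : (u.den : ℤ) ^ 4 ∣ mA p ∧ (u.den : ℤ) ^ 6 ∣ mB p := by
    have hnd : IsCoprime (u.den : ℤ) u.num := by
      have h1 := u.reduced
      have h2 := Int.isCoprime_iff_gcd_eq_one.2 (by
        rw [Int.gcd_comm]; exact h1 : Int.gcd (u.den : ℤ) u.num = 1)
      exact h2
    have hq : (u.den : ℚ) ≠ 0 := by exact_mod_cast u.den_nz
    have hue : u = (u.num : ℚ) / (u.den : ℚ) := (Rat.num_div_den u).symm
    constructor
    · have e1 : (a' : ℚ) * (u.den : ℚ) ^ 4 = (u.num : ℚ) ^ 4 * mA p := by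
        rw [ha]
        nth_rewrite 1 [hue]
        field_simp
      have e2 : a' * (u.den : ℤ) ^ 4 = u.num ^ 4 * mA p := by exact_mod_cast e1
      have e3 : (u.den : ℤ) ^ 4 ∣ u.num ^ 4 * mA p := ⟨a', by rw [← e2]; ring⟩
      exact (IsCoprime.pow hnd).dvd_of_dvd_mul_left e3
    · have e1 : (b' : ℚ) * (u.den : ℚ) ^ 6 = (u.num : ℚ) ^ 6 * mB p := by
        rw [hb]
        nth_rewrite 1 [hue]
        field_simp
      have e2 : b' * (u.den : ℤ) ^ 6 = u.num ^ 6 * mB p := by exact_mod_cast e1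
      have e3 : (u.den : ℤ) ^ 6 ∣ u.num ^ 6 * mB p := ⟨b', by rw [← e2]; ring⟩
      exact (IsCoprime.pow hnd).dvd_of_dvd_mul_left e3
  have hunit : IsUnit (u.den : ℤ) := by
    refine hcop.isUnit_of_dvd' ?_ ?_
    · exact (dvd_pow_self _ (by norm_num)).trans hden.1
    · exact (dvd_pow_self _ (by norm_num)).trans hden.2
  have hden1 : u.den = 1 := by
    rcases Int.isUnit_iff.1 hunit with h1 | h1
    · exact_mod_cast h1
    · have : (0 : ℤ) ≤ (u.den : ℤ) := Nat.cast_nonneg _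
      omega
  have hnum : (u.num : ℚ) = u := by
    have := Rat.num_div_den u
    rw [hden1] at this
    simpa using this
  have hn0 : u.num ≠ 0 := Rat.num_ne_zero.2 hu
  have e1 : ((D a' b' : ℤ) : ℚ) = u ^ 12 * ((D (mA p) (mB p) : ℤ) : ℚ) := by
    unfold D
    push_cast
    rw [ha, hb]
    ring
  have e2 : D a' b' = u.num ^ 12 * D (mA p) (mB p) := by
    rw [← hnum] at e1
    exact_mod_cast e1
  rw [e2, abs_mul]
  have h12 : 1 ≤ |u.num ^ 12| := Int.one_le_abs (pow_ne_zero _ hn0)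
  nlinarith [abs_nonneg (D (mA p) (mB p))]

theorem mcond {p : ℕ × ℕ} (h0 : 0 < p.1) (h : p.1 < p.2) (hc : Nat.Coprime p.1 p.2) :
    condS (mA p) (mB p) ≤ mP p := by
  have hP := mP_pos h0 h
  have hcop := mcop hc
  unfold condS
  rw [mD h, Int.natAbs_pow, Int.natAbs_natCast, Nat.primeFactors_pow _ two_ne_zero]
  have h1 : ∏ q ∈ (mP p).primeFactors.filter (fun q => 5 ≤ q),
      (if (q : ℤ) ∣ mA p then q ^ 2 else q) =
      ∏ q ∈ (mP p).primeFactors.filter (fun q => 5 ≤ q), q := by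
    refine prod_congr rfl fun q hq => ?_
    obtain ⟨hq1, hq2⟩ := mem_filter.1 hq
    have hqp := Nat.prime_of_mem_primeFactors hq1
    rw [if_neg]
    intro hd
    have h2 : (q : ℤ) ∣ D (mA p) (mB p) := by
      rw [mD h]
      exact Dvd.dvd.pow (by exact_mod_cast Nat.dvd_of_mem_primeFactors hq1) two_ne_zero
    have h3 : (q : ℤ) ∣ 27 * mB p ^ 2 := by
      have : 27 * mB p ^ 2 = 4 * mA p ^ 3 - D (mA p) (mB p) := by unfold D; ring
      rw [this]
      exact dvd_sub ((hd.pow (by norm_num)).mul_left 4) h2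
    have hqI : Prime (q : ℤ) := Nat.prime_iff_prime_int.1 hqp
    rcases hqI.dvd_or_dvd h3 with h4 | h4
    · have h5 : q ∣ 27 := by exact_mod_cast h4
      have h6 : q ∣ 3 := by
        have : (27 : ℕ) = 3 ^ 3 := by norm_num
        rw [this] at h5
        exact hqp.dvd_of_dvd_pow h5
      have := Nat.le_of_dvd (by norm_num) h6
      omega
    · have h5 := hqI.dvd_of_dvd_pow h4
      have h6 := hcop.isUnit_of_dvd' hd h5
      exact hqI.not_isUnit h6
  rw [h1]
  refine le_trans ?_ (Nat.le_of_dvd hP (Nat.prod_primeFactors_dvd (mP p)))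
  exact prod_le_prod_of_subset_of_one_le' (filter_subset _ _)
    fun q hq _ => (Nat.prime_of_mem_primeFactors hq).one_le

theorem minj {p p' : ℕ × ℕ} (h0 : 0 < p.1) (h : p.1 < p.2) (h0' : 0 < p'.1) (h' : p'.1 < p'.2)
    (hA : mA p = mA p') (hB : mB p = mB p') : p = p' := by
  obtain ⟨x, y⟩ := p
  obtain ⟨x', y'⟩ := p'
  simp only at h0 h h0' h'
  unfold mA mB at *
  simp only at hA hB
  have px : (0 : ℤ) < x := by exact_mod_cast h0
  have px' : (0 : ℤ) < x' := by exact_mod_cast h0'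
  have py : (x : ℤ) < y := by exact_mod_cast h
  have py' : (x' : ℤ) < y' := by exact_mod_cast h'
  have hx : ((x' : ℤ) - x) * (x' - y) * (x' + (x + y)) = 0 := by
    have e1 : ((x' : ℤ) - x) * (x' - y) * (x' + (x + y)) =
      x' ^ 3 - ((x : ℤ) ^ 2 + x * y + (y : ℤ) ^ 2) * x' - -((x : ℤ) * y * (x + y)) := by ring
    rw [e1, hA, hB]; ring
  have hy : ((y' : ℤ) - x) * (y' - y) * (y' + (x + y)) = 0 := by
    have e1 : ((y' : ℤ) - x) * (y' - y) * (y' + (x + y)) =
      y' ^ 3 - ((x : ℤ) ^ 2 + x * y + (y : ℤ) ^ 2) * y' - -((x : ℤ) * y * (x + y)) := by ring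
    rw [e1, hA, hB]; ring
  have hx2 : (x' : ℤ) = x ∨ (x' : ℤ) = y := by
    rcases mul_eq_zero.1 hx with h1 | h1
    · rcases mul_eq_zero.1 h1 with h1 | h1
      · left; linarith
      · right; linarith
    · exfalso; linarith
  have hy2 : (y' : ℤ) = x ∨ (y' : ℤ) = y := by
    rcases mul_eq_zero.1 hy with h1 | h1
    · rcases mul_eq_zero.1 h1 with h1 | h1
      · left; linarith
      · right; linarith
    · exfalso; linarith
  have hfin : (x' : ℤ) = x ∧ (y' : ℤ) = y := by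
    rcases hx2 with h1 | h1 <;> rcases hy2 with h2 | h2
    · exfalso; linarith
    · exact ⟨h1, h2⟩
    · exfalso; linarith
    · exfalso; linarith
  refine Prod.ext ?_ ?_
  · simp only; exact_mod_cast hfin.1.symm
  · simp only; exact_mod_cast hfin.2.symm

/-- the lower bound -/
theorem curS_lower : ∀ N H : ℝ, 576 ≤ N → 2 * Real.log N ≤ H →
    1 / 600 * N ^ ((2 : ℝ) / 3) ≤ ((CurS N H).ncard : ℝ) := by
  classical
  intro N H hN hH
  have hN0 : 0 < N := by linarith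
  have hH1 : 1 ≤ H := by
    have h1 : 1 ≤ Real.log N := by
      rw [Real.le_log_iff_exp_le hN0]
      have := Real.exp_one_lt_d9
      linarith
    linarith
  obtain ⟨Y, hY⟩ : ∃ Y : ℝ, Y = (N / 9) ^ ((1 : ℝ) / 3) := ⟨_, rfl⟩
  have hY0 : 0 < Y := by rw [hY]; positivity
  have hY3 : Y ^ 3 = N / 9 := by
    rw [hY, ← Real.rpow_natCast, ← Real.rpow_mul (by positivity)]
    norm_num
  have hY4 : 4 ≤ Y := by
    by_contra hlt
    push Not at hlt
    have h1 : Y ^ 3 < 4 ^ 3 := pow_lt_pow_left₀ hlt hY0.le (by norm_num)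
    rw [hY3] at h1
    linarith
  obtain ⟨M, hM⟩ : ∃ M : ℕ, M = ⌊Y⌋₊ := ⟨_, rfl⟩
  have hMY : (M : ℝ) ≤ Y := by rw [hM]; exact Nat.floor_le hY0.le
  have hM4 : 4 ≤ M := by rw [hM]; exact Nat.le_floor (by exact_mod_cast hY4)
  have hM4' : (4 : ℝ) ≤ M := by exact_mod_cast hM4
  have hMY2 : Y / 2 ≤ M := by
    have h1 : Y - 1 < M := by rw [hM]; exact Nat.sub_one_lt_floor _
    linarith
  obtain ⟨C, -, hfin⟩ := curS_upper 1 one_pos
  have hfin := (hfin N H (by linarith) hH1).1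
  set S := (cpp M).filter fun p => p.1 < p.2 with hS
  have hmem : ∀ p ∈ S, 0 < p.1 ∧ p.1 < p.2 ∧ p.2 ≤ M ∧ Nat.Coprime p.1 p.2 := by
    intro p hp
    obtain ⟨h1, h2⟩ := mem_filter.1 hp
    obtain ⟨h3, h4⟩ := mem_filter.1 h1
    obtain ⟨h5, h6⟩ := mem_product.1 h3
    exact ⟨(mem_Ioc.1 h5).1, h2, (mem_Ioc.1 h6).2, h4.2⟩
  have hScard : (M : ℝ) ^ 2 / 8 - 1 ≤ (S.card : ℝ) := by
    have h1 := coprime_count M (by omega)
    have h2 : (cpp M).card ≤ S.card + 1 := by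
      have hsub : cpp M ⊆ insert (1, 1) S := by
        intro p hp
        by_cases hlt : p.1 < p.2
        · exact mem_insert_of_mem (mem_filter.2 ⟨hp, hlt⟩)
        · obtain ⟨h3, h4⟩ := mem_filter.1 hp
          have h5 : p.1 = p.2 := le_antisymm h4.1 (not_lt.1 hlt)
          have h6 : Nat.Coprime p.1 p.1 := by rw [h5] at h4 ⊢; exact h4.2
          have h7 : p.1 = 1 := (Nat.coprime_self _).1 h6
          rw [mem_insert]
          left
          exact Prod.ext h7 (by rw [← h5]; exact h7)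
      exact (card_le_card hsub).trans (card_insert_le _ _)
    have h3 : ((cpp M).card : ℝ) ≤ S.card + 1 := by exact_mod_cast h2
    linarith
  have h1 : ((S : Finset (ℕ × ℕ)) : Set (ℕ × ℕ)).ncard ≤ (CurS N H).ncard := by
    refine Set.ncard_le_ncard_of_injOn (fun p => (mA p, mB p)) ?_ ?_ hfin
    · intro p hp
      obtain ⟨q1, q2, q3, q4⟩ := hmem p (mem_coe.1 hp)
      have hPpos := mP_pos q1 q2
      have hPle : (mP p : ℝ) ≤ N := by
        have h10 : mP p ≤ M * (2 * M + M) * (M + 2 * M) := by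
          unfold mP
          gcongr <;> omega
        have h11 : (mP p : ℝ) ≤ 9 * (M : ℝ) ^ 3 := by
          have : (mP p : ℝ) ≤ ((M * (2 * M + M) * (M + 2 * M) : ℕ) : ℝ) := by exact_mod_cast h10
          push_cast at this
          nlinarith
        have h12 : (M : ℝ) ^ 3 ≤ Y ^ 3 := pow_le_pow_left₀ (Nat.cast_nonneg _) hMY 3
        rw [hY3] at h12
        linarith
      have hPR : (0 : ℝ) < mP p := by exact_mod_cast hPpos
      refine ⟨mmin q1 q2 q4, mfull p, ?_, ?_⟩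
      · have e2 : (condS (mA p) (mB p) : ℝ) ≤ mP p := by exact_mod_cast mcond q1 q2 q4
        exact e2.trans hPle
      · show Real.log |((D (mA p) (mB p) : ℤ) : ℝ)| ≤ H
        have e3 : |((D (mA p) (mB p) : ℤ) : ℝ)| = (mP p : ℝ) ^ 2 := by
          rw [mD q2]
          push_cast
          exact abs_of_nonneg (by positivity)
        rw [e3, Real.log_pow]
        have := Real.log_le_log hPR hPle
        push_cast
        linarith
    · intro p hp p' hp' he
      obtain ⟨q1, q2, _, _⟩ := hmem p (mem_coe.1 hp)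
      obtain ⟨q1', q2', _, _⟩ := hmem p' (mem_coe.1 hp')
      simp only [Prod.mk.injEq] at he
      exact minj q1 q2 q1' q2' he.1 he.2
  rw [Set.ncard_coe_finset] at h1
  have h3 : (S.card : ℝ) ≤ ((CurS N H).ncard : ℝ) := by exact_mod_cast h1
  have h4 : (Y / 2) ^ 2 ≤ (M : ℝ) ^ 2 := pow_le_pow_left₀ (by positivity) hMY2 2
  have h5 : Y ^ 2 = (N / 9) ^ ((2 : ℝ) / 3) := by
    rw [hY, ← Real.rpow_natCast, ← Real.rpow_mul (by positivity)]
    norm_num
  have h6 : (N / 9) ^ ((2 : ℝ) / 3) = N ^ ((2 : ℝ) / 3) / 9 ^ ((2 : ℝ) / 3) :=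
    Real.div_rpow hN0.le (by norm_num) _
  have h7 : (9 : ℝ) ^ ((2 : ℝ) / 3) ≤ 9 := by
    calc (9 : ℝ) ^ ((2 : ℝ) / 3) ≤ 9 ^ (1 : ℝ) :=
          Real.rpow_le_rpow_of_exponent_le (by norm_num) (by norm_num)
      _ = 9 := Real.rpow_one 9
  have h8 : N ^ ((2 : ℝ) / 3) / 9 ≤ Y ^ 2 := by
    rw [h5, h6]
    exact div_le_div_of_nonneg_left (by positivity) (by positivity) h7
  have h9 : (Y / 2) ^ 2 = Y ^ 2 / 4 := by ring
  rw [h9] at h4
  have h10 : (M : ℝ) ^ 2 / 16 ≤ (M : ℝ) ^ 2 / 8 - 1 := by nlinarith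
  linarith

end Pool.Agent.TH867.EC
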