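import Pool.Agent.TH867.SR.Main
import Pool.Agent.TH867.SR.LB

/-! Counting pairs by the radical, and coprime pairs `(4 a - 1, b)` (helper867). -/

set_option autoImplicit false

namespace Pool.Agent.TH867.EC

open Finset Pool.Agent.TH867.SR

/-- the triple of a pair -/
def toT (p : ℕ × ℕ) : Fin 3 → ℕ := ![p.1, p.2, p.1 + p.2]

theorem toT_inj : Function.Injective toT := by
  intro p q h
  have h0 := congrFun h 0
  have h1 := congrFun h 1
  simp only [toT, Matrix.cons_val_zero, Matrix.cons_val_one] at h0 h1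
  exact Prod.ext h0 h1

/-- the pair form of the main count -/
theorem pairs_upper (ε : ℝ) (hε : 0 < ε) : ∃ D : ℝ, 0 < D ∧ ∀ X H : ℝ, 1 ≤ X → 1 ≤ H →
    ∀ T : Finset (ℕ × ℕ), (∀ p ∈ T, 0 < p.1 ∧ p.1 ≤ p.2 ∧ Nat.Coprime p.1 p.2 ∧
      ((radN (p.1 * p.2 * (p.1 + p.2)) : ℕ) : ℝ) ≤ X ∧ Real.log ((p.1 + p.2 : ℕ) : ℝ) ≤ H) →
    (T.card : ℝ) ≤ D * X ^ (2 / 3 + ε) * H := by
  classical
  obtain ⟨D, hD, h⟩ := main_upper ε hε
  refine ⟨D, hD, fun X H hX hH T hT => ?_⟩
  have h1 := h X H hX hH (T.image toT) (fun t ht => by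
    obtain ⟨p, hp, rfl⟩ := Finset.mem_image.1 ht
    obtain ⟨h1, h2, h3, h4, h5⟩ := hT p hp
    have ht : Tr (toT p) := ⟨h1, h2, h3, rfl⟩
    refine ⟨ht, ?_, h5⟩
    rw [← rr_sum ht, ← log_prod_primes fun q hq => Nat.prime_of_mem_primeFactors hq]
    refine Real.log_le_log ?_ h4
    exact_mod_cast Finset.prod_pos fun q hq => (Nat.prime_of_mem_primeFactors hq).pos)
  rwa [Finset.card_image_of_injective _ toT_inj] at h1

theorem odd_sum (M : ℕ) :
    ∑ j ∈ Finset.Icc 1 M, (1 : ℝ) / ((2 * j + 1 : ℕ) : ℝ) ^ 2 ≤ 1 / 4 - 1 / (4 * (M + 1)) := by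
  induction M with
  | zero => norm_num
  | succ n ih =>
    rw [Finset.sum_Icc_succ_top (by omega)]
    have h1 : (1 : ℝ) / ((2 * (n + 1) + 1 : ℕ) : ℝ) ^ 2 ≤
        1 / (4 * ((n : ℝ) + 1)) - 1 / (4 * (((n + 1 : ℕ) : ℝ) + 1)) := by
      push_cast
      rw [div_sub_div _ _ (by positivity) (by positivity), div_le_div_iff₀ (by positivity)
        (by positivity)]
      nlinarith
    linarith

/-- the integers `a ≤ M` with `d ∣ 4 a - 1`, `d` odd -/
theorem res_count (M d : ℕ) (hd : 0 < d) (hodd : Nat.Coprime d 4) :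
    ((Finset.Icc 1 M).filter fun a => d ∣ 4 * a - 1).card ≤ M / d + 1 := by
  have h1 : ((Finset.Icc 1 M).filter fun a => d ∣ 4 * a - 1).card ≤
      (Finset.range (M / d + 1)).card := by
    refine Finset.card_le_card_of_injOn (fun a => a / d) ?_ ?_
    · intro a ha
      obtain ⟨h2, _⟩ := Finset.mem_filter.1 ha
      obtain ⟨_, h4⟩ := Finset.mem_Icc.1 h2
      simp only [Finset.coe_range, Set.mem_Iio]
      exact Nat.lt_succ_of_le (Nat.div_le_div_right h4)
    · intro a ha a' ha' he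
      obtain ⟨h2, h3⟩ := Finset.mem_filter.1 ha
      obtain ⟨h2', h3'⟩ := Finset.mem_filter.1 ha'
      obtain ⟨h4, _⟩ := Finset.mem_Icc.1 h2
      obtain ⟨h4', _⟩ := Finset.mem_Icc.1 h2'
      simp only at he
      have key : ∀ x y : ℕ, 1 ≤ x → 1 ≤ y → d ∣ 4 * x - 1 → d ∣ 4 * y - 1 → x / d = y / d →
          x ≤ y → x = y := by
        intro x y hx hy hdx hdy hxy hle
        have h5 : d ∣ (4 * y - 1) - (4 * x - 1) := Nat.dvd_sub hdy hdx
        have h6 : (4 * y - 1) - (4 * x - 1) = 4 * (y - x) := by omega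
        rw [h6] at h5
        have h7 : d ∣ y - x := hodd.dvd_of_dvd_mul_left h5
        have h8 : y - x < d := by
          have e1 := Nat.div_add_mod x d
          have e2 := Nat.div_add_mod y d
          have e3 := Nat.mod_lt y hd
          rw [hxy] at e1
          omega
        have h9 := Nat.eq_zero_of_dvd_of_lt h7 h8
        omega
      rcases le_total a a' with h | h
      · exact key a a' h4 h4' h3 h3' he h
      · exact (key a' a h4' h4 h3' h3 he.symm h).symm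
  rwa [Finset.card_range] at h1

/-- pairs `(a, b)`, `1 ≤ a, b ≤ M`, with `4 a - 1` and `b` coprime -/
def gp (M : ℕ) : Finset (ℕ × ℕ) :=
  ((Finset.Icc 1 M) ×ˢ (Finset.Icc 1 M)).filter fun p => Nat.Coprime (4 * p.1 - 1) p.2

theorem gp_card (M : ℕ) : (M : ℝ) ^ 2 / 2 ≤ ((gp M).card : ℝ) := by
  classical
  set P := (Finset.Icc 1 M) ×ˢ (Finset.Icc 1 M) with hP
  set Q' := P.filter fun p => ¬ Nat.Coprime (4 * p.1 - 1) p.2 with hQ'
  have hPc : P.card = M * M := by
    rw [hP, Finset.card_product, Nat.card_Icc, Nat.add_sub_cancel]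
  have h1 : P.card = (gp M).card + Q'.card :=
    (Finset.card_filter_add_card_filter_not (s := P)
      (fun p => Nat.Coprime (4 * p.1 - 1) p.2)).symm
  have h2 : Q'.card ≤ ∑ j ∈ Finset.Icc 1 M, 2 * (M / (2 * j + 1)) ^ 2 := by
    have hsub : Q' ⊆ (Finset.Icc 1 M).biUnion fun j =>
        ((Finset.Icc 1 M).filter fun a => (2 * j + 1) ∣ 4 * a - 1) ×ˢ
          ((Finset.Icc 1 M).filter fun b => (2 * j + 1) ∣ b) := by
      intro p hp
      obtain ⟨h3, h4⟩ := Finset.mem_filter.1 hp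
      obtain ⟨h5, h6⟩ := Finset.mem_product.1 h3
      obtain ⟨q, hq, hq1, hq2⟩ := Nat.Prime.not_coprime_iff_dvd.1 h4
      obtain ⟨h7, h8⟩ := Finset.mem_Icc.1 h5
      obtain ⟨h9, h10⟩ := Finset.mem_Icc.1 h6
      have hq2' : q ≠ 2 := by
        rintro rfl
        omega
      obtain ⟨j, hj⟩ := hq.odd_of_ne_two hq2'
      have hqM : q ≤ M := (Nat.le_of_dvd h9 hq2).trans h10
      have hq3 := hq.two_le
      rw [Finset.mem_biUnion]
      refine ⟨j, Finset.mem_Icc.2 ⟨by omega, by omega⟩, Finset.mem_product.2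
        ⟨Finset.mem_filter.2 ⟨h5, ?_⟩, Finset.mem_filter.2 ⟨h6, ?_⟩⟩⟩
      · rw [← hj]; exact hq1
      · rw [← hj]; exact hq2
    refine (Finset.card_le_card hsub).trans (Finset.card_biUnion_le.trans
      (Finset.sum_le_sum fun j _ => ?_))
    rw [Finset.card_product]
    have e1 := res_count M (2 * j + 1) (by omega) (by
      have : Nat.Coprime (2 * j + 1) (2 ^ 2) := by
        refine Nat.Coprime.pow_right 2 ?_
        rw [Nat.coprime_comm, Nat.coprime_two_left]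
        exact ⟨j, rfl⟩
      exact this)
    have e2 : ((Finset.Icc 1 M).filter fun b => (2 * j + 1) ∣ b).card = M / (2 * j + 1) := by
      have := Nat.Ioc_filter_dvd_card_eq_div M (2 * j + 1)
      rw [← this]
      congr 1
    rw [e2]
    rcases Nat.eq_zero_or_pos (M / (2 * j + 1)) with h | h
    · rw [h]; simp
    · have e3 : ((Finset.Icc 1 M).filter fun a => (2 * j + 1) ∣ 4 * a - 1).card ≤
          2 * (M / (2 * j + 1)) := by omega
      calc ((Finset.Icc 1 M).filter fun a => (2 * j + 1) ∣ 4 * a - 1).card *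
            (M / (2 * j + 1)) ≤ 2 * (M / (2 * j + 1)) * (M / (2 * j + 1)) :=
            Nat.mul_le_mul_right _ e3
        _ = _ := by ring
  have h3 : ((∑ j ∈ Finset.Icc 1 M, 2 * (M / (2 * j + 1)) ^ 2 : ℕ) : ℝ) ≤ (M : ℝ) ^ 2 / 2 := by
    push_cast
    calc ∑ j ∈ Finset.Icc 1 M, 2 * (((M / (2 * j + 1) : ℕ) : ℝ)) ^ 2 ≤
        ∑ j ∈ Finset.Icc 1 M, 2 * (M : ℝ) ^ 2 * (1 / ((2 * j + 1 : ℕ) : ℝ) ^ 2) := by
          refine Finset.sum_le_sum fun j _ => ?_
          have h4 : ((M / (2 * j + 1) : ℕ) : ℝ) ≤ (M : ℝ) / ((2 * j + 1 : ℕ) : ℝ) :=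
            Nat.cast_div_le
          have h5 : ((M / (2 * j + 1) : ℕ) : ℝ) ^ 2 ≤ ((M : ℝ) / ((2 * j + 1 : ℕ) : ℝ)) ^ 2 :=
            pow_le_pow_left₀ (Nat.cast_nonneg _) h4 2
          rw [div_pow] at h5
          calc 2 * ((M / (2 * j + 1) : ℕ) : ℝ) ^ 2 ≤
              2 * ((M : ℝ) ^ 2 / ((2 * j + 1 : ℕ) : ℝ) ^ 2) := by linarith
            _ = _ := by ring
      _ = 2 * (M : ℝ) ^ 2 * ∑ j ∈ Finset.Icc 1 M, (1 / ((2 * j + 1 : ℕ) : ℝ) ^ 2) := by
          rw [Finset.mul_sum]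
      _ ≤ 2 * (M : ℝ) ^ 2 * (1 / 4) := by
          refine mul_le_mul_of_nonneg_left ?_ (by positivity)
          have := odd_sum M
          have h5 : (0 : ℝ) < 1 / (4 * (M + 1)) := by positivity
          linarith
      _ = _ := by ring
  have h5 : (Q'.card : ℝ) ≤ (M : ℝ) ^ 2 / 2 := by
    refine le_trans ?_ h3
    exact_mod_cast h2
  have h6 : ((M : ℝ) * M) = (gp M).card + Q'.card := by
    rw [hPc] at h1
    exact_mod_cast h1
  nlinarith

end Pool.Agent.TH867.EC
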