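import Pool.Agent.TH867.EC.Pairs
import Pool.Agent.H925R.Szpiro.SemiCount

/-! Semistable elliptic curves with full 2-torsion, counted by the conductor (helper867). -/

set_option autoImplicit false

namespace Pool.Agent.TH867.EC

open Finset Pool.Agent.TH867.SR Pool.Agent.H925R.Szpiro

/-- the invariants `(c₄, c₆)` of the semistable curves with full 2-torsion, conductor at most `N`
and discriminant at most `exp H` -/
def Cur (N H : ℝ) : Set (ℤ × ℤ) :=
  {q | ∃ W : WeierstrassCurve ℤ, W.Δ ≠ 0 ∧ IsCoprime W.c₄ W.Δ ∧ Full W ∧ q = (W.c₄, W.c₆) ∧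
    (cond W : ℝ) ≤ N ∧ Real.log |(W.Δ : ℝ)| ≤ H}

/-- the discriminant is nearly the fourth power of `u + v` -/
theorem log_sum_le {g u v : ℕ} (hg : g = 1 ∨ g = 2) (hu : 0 < u) (hv : 0 < v) {D : ℤ}
    (hD : D ≠ 0) (h : 256 * D = (g : ℤ) ^ 6 * ((u : ℤ) * v * (u + v)) ^ 2) {H : ℝ}
    (hH : Real.log |(D : ℝ)| ≤ H) : Real.log ((u + v : ℕ) : ℝ) ≤ H / 4 + 2 := by
  have hu1 : (1 : ℝ) ≤ u := by exact_mod_cast hu
  have hv1 : (1 : ℝ) ≤ v := by exact_mod_cast hv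
  have hR : 256 * (D : ℝ) = (g : ℝ) ^ 6 * ((u : ℝ) * v * (u + v)) ^ 2 := by exact_mod_cast h
  have hg1 : (1 : ℝ) ≤ (g : ℝ) ^ 6 := by
    rcases hg with rfl | rfl <;> norm_num
  obtain ⟨s, hs⟩ : ∃ s : ℝ, s = (u : ℝ) + v := ⟨_, rfl⟩
  have hs2 : 2 ≤ s := by rw [hs]; linarith
  have huv : s / 2 ≤ (u : ℝ) * v := by
    rw [hs]
    nlinarith [mul_nonneg (sub_nonneg.2 hu1) (sub_nonneg.2 hv1)]
  have h1 : (s / 2 * s) ^ 2 ≤ ((u : ℝ) * v * (u + v)) ^ 2 := by
    rw [← hs]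
    refine pow_le_pow_left₀ (by positivity) ?_ 2
    exact mul_le_mul_of_nonneg_right huv (by linarith)
  have h2 : (s / 2 * s) ^ 2 ≤ 256 * (D : ℝ) := by
    rw [hR]
    have : 0 ≤ ((u : ℝ) * v * (u + v)) ^ 2 := by positivity
    nlinarith
  have hD0 : 0 < (D : ℝ) := by
    have : 0 < (s / 2 * s) ^ 2 := by positivity
    linarith
  rw [abs_of_pos hD0] at hH
  have h3 : s ^ 4 ≤ 1024 * (D : ℝ) := by
    have : (s / 2 * s) ^ 2 = s ^ 4 / 4 := by ring
    rw [this] at h2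
    linarith
  have h4 : Real.log (s ^ 4) ≤ Real.log (1024 * (D : ℝ)) :=
    Real.log_le_log (by positivity) h3
  rw [Real.log_pow, Real.log_mul (by norm_num) hD0.ne'] at h4
  have h5 : Real.log 1024 ≤ 8 := by
    have e : (1024 : ℝ) = 2 ^ 10 := by norm_num
    rw [e, Real.log_pow]
    have := Real.log_two_lt_d9
    push_cast
    linarith
  have h6 : Real.log ((u + v : ℕ) : ℝ) = Real.log s := by
    rw [hs]; push_cast; rfl
  rw [h6]
  push_cast at h4
  linarith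

/-- the upper bound -/
theorem cur_upper (ε : ℝ) (hε : 0 < ε) : ∃ C : ℝ, 0 < C ∧ ∀ N H : ℝ, 1 ≤ N → 1 ≤ H →
    (Cur N H).Finite ∧ ((Cur N H).ncard : ℝ) ≤ C * H * N ^ (2 / 3 + ε) := by
  classical
  obtain ⟨D, hD, hup⟩ := pairs_upper ε hε
  refine ⟨4 * (D * 2 ^ (2 / 3 + ε) * 3), by positivity, fun N H hN hH => ?_⟩
  obtain ⟨B, hB⟩ : ∃ B : ℕ, B = ⌊Real.exp (H / 4 + 2)⌋₊ := ⟨_, rfl⟩
  set T : Finset (ℕ × ℕ) := ((range (B + 1)) ×ˢ (range (B + 1))).filter (fun p =>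
    0 < p.1 ∧ p.1 ≤ p.2 ∧ Nat.Coprime p.1 p.2 ∧
      ((radN (p.1 * p.2 * (p.1 + p.2)) : ℕ) : ℝ) ≤ 2 * N ∧
      Real.log ((p.1 + p.2 : ℕ) : ℝ) ≤ H / 4 + 2) with hT
  set A : Finset (ℕ × ℤ) := ({1, 2} : Finset ℕ) ×ˢ ({1, -1} : Finset ℤ) with hA
  have hAcard : A.card ≤ 4 := by
    rw [hA, card_product]
    have h1 : ({1, 2} : Finset ℕ).card ≤ 2 := card_le_two
    have h2 : ({1, -1} : Finset ℤ).card ≤ 2 := card_le_two
    nlinarith
  have hsub : Cur N H ⊆ (((A ×ˢ T).image inv : Finset (ℤ × ℤ)) : Set (ℤ × ℤ)) := by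
    rintro q ⟨W, hΔ, hc, hf, rfl, hN', hH'⟩
    obtain ⟨g, u', v', hg, hu', hv', hcop', E4', ED'⟩ := semi_pair W hΔ hc hf
    -- order the pair
    obtain ⟨u, v, hu, hv, huv, hcop, E4, ED⟩ : ∃ u v : ℕ, 0 < u ∧ 0 < v ∧ u ≤ v ∧
        Nat.Coprime u v ∧ W.c₄ = (g : ℤ) ^ 2 * (u ^ 2 + u * v + v ^ 2) ∧
        256 * W.Δ = (g : ℤ) ^ 6 * (u * v * (u + v)) ^ 2 := by
      rcases le_total u' v' with h | h
      · exact ⟨u', v', hu', hv', h, hcop', E4', ED'⟩
      · refine ⟨v', u', hv', hu', h, hcop'.symm, ?_, ?_⟩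
        · rw [E4']; ring
        · rw [ED']; ring
    rw [mem_coe, mem_image]
    obtain ⟨s, hs, hs6⟩ : ∃ s : ℤ, s ∈ ({1, -1} : Finset ℤ) ∧ W.c₆ = s * |W.c₆| := by
      rcases le_total 0 W.c₆ with h0 | h0
      · exact ⟨1, by simp, by rw [abs_of_nonneg h0]; ring⟩
      · exact ⟨-1, by simp, by rw [abs_of_nonpos h0]; ring⟩
    refine ⟨((g, s), (u, v)), ?_, ?_⟩
    · rw [mem_product]
      constructor
      · rw [hA, mem_product]
        refine ⟨?_, hs⟩
        rcases hg with rfl | rfl <;> simp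
      · have hlog : Real.log ((u + v : ℕ) : ℝ) ≤ H / 4 + 2 :=
          log_sum_le hg hu hv hΔ ED hH'
        have hle : u + v ≤ B := by
          rw [hB]
          refine Nat.le_floor ?_
          rw [← Real.log_le_iff_le_exp (by exact_mod_cast (by omega : 0 < u + v))]
          exact hlog
        rw [hT, mem_filter, mem_product, mem_range, mem_range]
        refine ⟨⟨by simp only; omega, by simp only; omega⟩, hu, huv, hcop, ?_, hlog⟩
        simp only
        have hD' : 256 * W.Δ = (g : ℤ) ^ 6 * ((u * v * (u + v) : ℕ) : ℤ) ^ 2 := by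
          rw [ED]; push_cast; ring
        have hr : ((radN (u * v * (u + v)) : ℕ) : ℝ) ≤ 2 * (cond W : ℝ) := by
          exact_mod_cast rad_le_two_cond W hΔ g _ hD'
        linarith
    · unfold inv
      simp only
      refine Prod.ext E4.symm ?_
      simp only
      rw [← E4]
      have hΔ' : ((g : ℤ) ^ 6 * ((u : ℤ) * v * (u + v)) ^ 2) / 256 = W.Δ := by
        rw [← ED]
        exact Int.mul_ediv_cancel_left _ (by norm_num)
      rw [hΔ']
      have hrel := W.c_relation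
      have h7 : W.c₄ ^ 3 - 1728 * W.Δ = |W.c₆| ^ 2 := by rw [sq_abs]; linarith
      have h8 : (|W.c₆| ^ 2).toNat = (W.c₆.natAbs) ^ 2 := by
        rw [Int.abs_eq_natAbs, ← Nat.cast_pow, Int.toNat_natCast]
      rw [h7, h8, Nat.sqrt_eq', ← Int.abs_eq_natAbs]
      exact hs6.symm
  refine ⟨Set.Finite.subset (Finset.finite_toSet _) hsub, ?_⟩
  have h1 : (Cur N H).ncard ≤ ((A ×ˢ T).image inv).card := by
    rw [← Set.ncard_coe_finset]
    exact Set.ncard_le_ncard hsub (Finset.finite_toSet _)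
  have h2 : ((A ×ˢ T).image inv).card ≤ 4 * T.card :=
    card_image_le.trans (by rw [card_product]; exact Nat.mul_le_mul_right _ hAcard)
  have h3 : ((Cur N H).ncard : ℝ) ≤ 4 * T.card := by exact_mod_cast h1.trans h2
  have h4 := hup (2 * N) (H / 4 + 2) (by linarith) (by linarith) T (fun p hp =>
    (mem_filter.1 hp).2)
  rw [Real.mul_rpow (by norm_num) (by linarith)] at h4
  have hNp : 0 ≤ N ^ (2 / 3 + ε) := by positivity
  calc ((Cur N H).ncard : ℝ) ≤ 4 * T.card := h3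
    _ ≤ 4 * (D * (2 ^ (2 / 3 + ε) * N ^ (2 / 3 + ε)) * (H / 4 + 2)) := by linarith
    _ ≤ 4 * (D * (2 ^ (2 / 3 + ε) * N ^ (2 / 3 + ε)) * (3 * H)) := by
        refine mul_le_mul_of_nonneg_left ?_ (by norm_num)
        refine mul_le_mul_of_nonneg_left ?_ (by positivity)
        linarith
    _ = _ := by ring

/-- the curve attached to `(a, b)`; with `A = 4 a - 1` and `B = 16 b` it is the minimal model of
`y² = x (x - A) (x + B)` -/
def Wc (a b : ℕ) : WeierstrassCurve ℤ where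
  a₁ := 1
  a₂ := 4 * b - a
  a₃ := 0
  a₄ := -((4 * a - 1) * b)
  a₆ := 0

theorem Wc_b2 (a b : ℕ) : (Wc a b).b₂ = 16 * b - (4 * a - 1) := by
  simp only [WeierstrassCurve.b₂, Wc]; ring

theorem Wc_b4 (a b : ℕ) : (Wc a b).b₄ = -2 * ((4 * a - 1) * b) := by
  simp only [WeierstrassCurve.b₄, Wc]; ring

theorem Wc_b6 (a b : ℕ) : (Wc a b).b₆ = 0 := by
  simp only [WeierstrassCurve.b₆, Wc]; ring

theorem Wc_c4 (a b : ℕ) : (Wc a b).c₄ =
    (4 * a - 1 : ℤ) ^ 2 + (4 * a - 1) * (16 * b) + (16 * b) ^ 2 := by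
  simp only [WeierstrassCurve.c₄, WeierstrassCurve.b₂, WeierstrassCurve.b₄, Wc]; ring

theorem Wc_D (a b : ℕ) : (Wc a b).Δ =
    ((4 * a - 1 : ℤ) * b * ((4 * a - 1) + 16 * b)) ^ 2 := by
  simp only [WeierstrassCurve.Δ, WeierstrassCurve.b₂, WeierstrassCurve.b₄, WeierstrassCurve.b₆,
    WeierstrassCurve.b₈, Wc]
  ring

theorem Wc_full (a b : ℕ) : Full (Wc a b) := by
  refine ⟨0, (4 * a - 1) / 4, -(4 * b), fun x => ?_⟩
  rw [Wc_b2, Wc_b4, Wc_b6]
  push_cast
  ring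

theorem Wc_coprime (a b : ℕ) (h : IsCoprime (4 * a - 1 : ℤ) (b : ℤ)) :
    IsCoprime (Wc a b).c₄ (Wc a b).Δ := by
  obtain ⟨A, hA⟩ : ∃ A : ℤ, A = 4 * a - 1 := ⟨_, rfl⟩
  rw [Wc_c4, Wc_D, ← hA]
  rw [← hA] at h
  have h2 : IsCoprime A 2 := by
    refine ⟨-1, 2 * a, ?_⟩
    rw [hA]; ring
  have h16 : IsCoprime A 16 := by
    have := IsCoprime.pow_right (n := 4) h2
    norm_num at this
    exact this
  have hB : IsCoprime A (16 * b) := IsCoprime.mul_right h16 h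
  refine IsCoprime.pow_right ?_
  refine IsCoprime.mul_right (IsCoprime.mul_right ?_ ?_) ?_
  · have h3 : IsCoprime ((16 * (b : ℤ)) ^ 2) A := (IsCoprime.pow_right hB).symm
    have h4 := IsCoprime.add_mul_left_left h3 (A + 16 * b)
    have e : (16 * (b : ℤ)) ^ 2 + A * (A + 16 * b) = A ^ 2 + A * (16 * b) + (16 * b) ^ 2 := by ring
    rwa [e] at h4
  · have h3 : IsCoprime (A ^ 2) (b : ℤ) := IsCoprime.pow_left h
    have h4 := IsCoprime.add_mul_left_left h3 (A * 16 + 256 * b)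
    have e : A ^ 2 + (b : ℤ) * (A * 16 + 256 * b) = A ^ 2 + A * (16 * b) + (16 * b) ^ 2 := by ring
    rwa [e] at h4
  · have h3 : IsCoprime (A * (16 * b)) (A + 16 * b) := by
      refine IsCoprime.mul_left ?_ ?_
      · have := IsCoprime.add_mul_left_right hB 1
        rwa [mul_one, add_comm] at this
      · have := IsCoprime.add_mul_left_right hB.symm 1
        rwa [mul_one] at this
    have h4 : IsCoprime (-(A * (16 * b))) (A + 16 * b) := h3.neg_left
    have h5 := IsCoprime.add_mul_left_left h4 (A + 16 * b)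
    have e : -(A * (16 * (b : ℤ))) + (A + 16 * b) * (A + 16 * b) =
        A ^ 2 + A * (16 * b) + (16 * b) ^ 2 := by ring
    rwa [e] at h5

/-- the pair is determined by the invariants -/
theorem Wc_inj {a b a' b' : ℕ} (ha : 1 ≤ a) (hb : 1 ≤ b) (ha' : 1 ≤ a') (hb' : 1 ≤ b')
    (h4 : (Wc a b).c₄ = (Wc a' b').c₄) (h6 : (Wc a b).c₆ = (Wc a' b').c₆) : a = a' ∧ b = b' := by
  have hD : (Wc a b).Δ = (Wc a' b').Δ := by
    have r1 := (Wc a b).c_relation
    have r2 := (Wc a' b').c_relation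
    rw [h4, h6, ← r2] at r1
    linarith
  rw [Wc_D, Wc_D] at hD
  rw [Wc_c4, Wc_c4] at h4
  obtain ⟨A, hA⟩ : ∃ A : ℤ, A = 4 * a - 1 := ⟨_, rfl⟩
  obtain ⟨A', hA'⟩ : ∃ A' : ℤ, A' = 4 * a' - 1 := ⟨_, rfl⟩
  rw [← hA, ← hA'] at hD h4
  have pa : (1 : ℤ) ≤ a := by exact_mod_cast ha
  have pa' : (1 : ℤ) ≤ a' := by exact_mod_cast ha'
  have pb : (1 : ℤ) ≤ b := by exact_mod_cast hb
  have pb' : (1 : ℤ) ≤ b' := by exact_mod_cast hb'
  have pA : 0 < A := by omega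
  have pA' : 0 < A' := by omega
  have hP : A * b * (A + 16 * b) = A' * b' * (A' + 16 * b') := by
    have q1 : 0 ≤ A * b * (A + 16 * b) := by positivity
    have q2 : 0 ≤ A' * b' * (A' + 16 * b') := by positivity
    exact (pow_left_inj₀ q1 q2 (by norm_num)).1 hD
  have hroot : (A' - A) * (A' - 16 * b) * (A' + (A + 16 * b)) = 0 := by
    have e1 : (A' - A) * (A' - 16 * b) * (A' + (A + 16 * b)) =
      A' ^ 3 - (A ^ 2 + A * (16 * b) + (16 * b) ^ 2) * A' + 16 * (A * b * (A + 16 * b)) := by ring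
    have e2 : A' ^ 3 - (A' ^ 2 + A' * (16 * b') + (16 * b') ^ 2) * A' +
      16 * (A' * b' * (A' + 16 * b')) = 0 := by ring
    rw [e1, h4, hP]
    exact e2
  have hAA : A' = A := by
    rcases mul_eq_zero.1 hroot with h | h
    · rcases mul_eq_zero.1 h with h | h
      · linarith
      · exfalso
        omega
    · exfalso
      have : 0 < A' + (A + 16 * b) := by positivity
      omega
  have hbb : b = b' := by
    rw [hAA] at h4
    have e3 : ((16 * (b : ℤ)) - 16 * b') * (A + 16 * b + 16 * b') = 0 := by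
      have e4 : ((16 * (b : ℤ)) - 16 * b') * (A + 16 * b + 16 * b') =
        (A ^ 2 + A * (16 * b) + (16 * b) ^ 2) - (A ^ 2 + A * (16 * b') + (16 * b') ^ 2) := by ring
      rw [e4, h4]; ring
    rcases mul_eq_zero.1 e3 with h | h
    · omega
    · exfalso
      have : 0 < A + 16 * b + 16 * b' := by positivity
      omega
  refine ⟨?_, hbb⟩
  omega

theorem isCoprime_of {a b : ℕ} (ha : 1 ≤ a) (h : Nat.Coprime (4 * a - 1) b) :
    IsCoprime (4 * a - 1 : ℤ) (b : ℤ) := by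
  have h1 := Nat.isCoprime_iff_coprime.2 h
  have h2 : ((4 * a - 1 : ℕ) : ℤ) = 4 * a - 1 := by
    rw [Nat.cast_sub (by omega)]
    push_cast
    ring
  rwa [h2] at h1

/-- the lower bound -/
theorem cur_lower : ∀ N H : ℝ, 80 ≤ N → 2 * Real.log N ≤ H →
    1 / 200 * N ^ ((2 : ℝ) / 3) ≤ ((Cur N H).ncard : ℝ) := by
  classical
  intro N H hN hH
  have hN0 : 0 < N := by linarith
  have hH1 : 1 ≤ H := by
    have h1 : 1 ≤ Real.log N := by
      rw [Real.le_log_iff_exp_le hN0]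
      have := Real.exp_one_lt_d9
      linarith
    linarith
  obtain ⟨Y, hY⟩ : ∃ Y : ℝ, Y = (N / 80) ^ ((1 : ℝ) / 3) := ⟨_, rfl⟩
  have hY0 : 0 < Y := by rw [hY]; positivity
  have hY3 : Y ^ 3 = N / 80 := by
    rw [hY, ← Real.rpow_natCast, ← Real.rpow_mul (by positivity)]
    norm_num
  have hY1 : 1 ≤ Y := by
    rw [hY]
    refine Real.one_le_rpow ?_ (by norm_num)
    rw [le_div_iff₀ (by norm_num)]
    linarith
  obtain ⟨M, hM⟩ : ∃ M : ℕ, M = ⌊Y⌋₊ := ⟨_, rfl⟩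
  have hMY : (M : ℝ) ≤ Y := by rw [hM]; exact Nat.floor_le hY0.le
  have hMY2 : Y / 2 ≤ M := by
    have h1 : Y - 1 < M := by rw [hM]; exact Nat.sub_one_lt_floor _
    have h2 : (1 : ℝ) ≤ M := by
      have : 1 ≤ M := by rw [hM]; exact Nat.le_floor (by exact_mod_cast hY1)
      exact_mod_cast this
    linarith
  obtain ⟨C, -, hfin⟩ := cur_upper 1 one_pos
  have hfin := (hfin N H (by linarith) hH1).1
  have h1 : ((gp M : Finset (ℕ × ℕ)) : Set (ℕ × ℕ)).ncard ≤ (Cur N H).ncard := by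
    refine Set.ncard_le_ncard_of_injOn (fun p => ((Wc p.1 p.2).c₄, (Wc p.1 p.2).c₆)) ?_ ?_ hfin
    · intro p hp
      obtain ⟨h2, h3⟩ := mem_filter.1 (mem_coe.1 hp)
      obtain ⟨h4, h5⟩ := mem_product.1 h2
      obtain ⟨h6, h7⟩ := mem_Icc.1 h4
      obtain ⟨h8, h9⟩ := mem_Icc.1 h5
      obtain ⟨a, b⟩ := p
      simp only at h3 h6 h7 h8 h9 ⊢
      have pa : (1 : ℤ) ≤ a := by exact_mod_cast h6
      have pb : (1 : ℤ) ≤ b := by exact_mod_cast h8
      obtain ⟨P, hP⟩ : ∃ P : ℕ, P = (4 * a - 1) * b * ((4 * a - 1) + 16 * b) := ⟨_, rfl⟩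
      have hPpos : 0 < P := by
        rw [hP]
        have : 0 < 4 * a - 1 := by omega
        positivity
      have hDP : (Wc a b).Δ = (P : ℤ) ^ 2 := by
        rw [Wc_D, hP]
        push_cast [Nat.cast_sub (by omega : 1 ≤ 4 * a)]
        ring
      have hPle : (P : ℝ) ≤ N := by
        have h10 : P ≤ (4 * M) * M * (4 * M + 16 * M) := by
          rw [hP]
          gcongr <;> omega
        have h11 : (P : ℝ) ≤ 80 * (M : ℝ) ^ 3 := by
          have : (P : ℝ) ≤ ((4 * M) * M * (4 * M + 16 * M) : ℕ) := by exact_mod_cast h10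
          push_cast at this
          nlinarith
        have h12 : (M : ℝ) ^ 3 ≤ Y ^ 3 := pow_le_pow_left₀ (Nat.cast_nonneg _) hMY 3
        rw [hY3] at h12
        linarith
      have hPR : (0 : ℝ) < P := by exact_mod_cast hPpos
      refine ⟨Wc a b, ?_, Wc_coprime a b (isCoprime_of h6 h3), Wc_full a b, rfl, ?_, ?_⟩
      · rw [hDP]
        positivity
      · have e1 : cond (Wc a b) ≤ P := by
          unfold Pool.Agent.H925R.Szpiro.cond
          rw [hDP, Int.natAbs_pow, Int.natAbs_natCast, Nat.primeFactors_pow _ two_ne_zero]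
          exact Nat.le_of_dvd hPpos (Nat.prod_primeFactors_dvd P)
        have e2 : (cond (Wc a b) : ℝ) ≤ P := by exact_mod_cast e1
        linarith
      · have e3 : |((Wc a b).Δ : ℝ)| = (P : ℝ) ^ 2 := by
          rw [hDP]
          push_cast
          exact abs_of_nonneg (by positivity)
        rw [e3, Real.log_pow]
        have := Real.log_le_log hPR hPle
        push_cast
        linarith
    · intro p hp p' hp' he
      obtain ⟨h2, _⟩ := mem_filter.1 (mem_coe.1 hp)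
      obtain ⟨h4, h5⟩ := mem_product.1 h2
      obtain ⟨h2', _⟩ := mem_filter.1 (mem_coe.1 hp')
      obtain ⟨h4', h5'⟩ := mem_product.1 h2'
      simp only [Prod.mk.injEq] at he
      obtain ⟨e1, e2⟩ := Wc_inj (mem_Icc.1 h4).1 (mem_Icc.1 h5).1 (mem_Icc.1 h4').1
        (mem_Icc.1 h5').1 he.1 he.2
      exact Prod.ext e1 e2
  rw [Set.ncard_coe_finset] at h1
  have h2 := gp_card M
  have h3 : ((gp M).card : ℝ) ≤ ((Cur N H).ncard : ℝ) := by exact_mod_cast h1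
  have h4 : (Y / 2) ^ 2 ≤ (M : ℝ) ^ 2 := pow_le_pow_left₀ (by positivity) hMY2 2
  have h5 : Y ^ 2 = (N / 80) ^ ((2 : ℝ) / 3) := by
    rw [hY, ← Real.rpow_natCast, ← Real.rpow_mul (by positivity)]
    norm_num
  have h6 : (N / 80) ^ ((2 : ℝ) / 3) = N ^ ((2 : ℝ) / 3) / 80 ^ ((2 : ℝ) / 3) :=
    Real.div_rpow hN0.le (by norm_num) _
  have h7 : (80 : ℝ) ^ ((2 : ℝ) / 3) ≤ 25 := by
    have h8 : (80 : ℝ) ^ ((2 : ℝ) / 3) ≤ 125 ^ ((2 : ℝ) / 3) :=
      Real.rpow_le_rpow (by norm_num) (by norm_num) (by norm_num)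
    have h9 : (125 : ℝ) ^ ((2 : ℝ) / 3) = 25 := by
      rw [show (125 : ℝ) = 5 ^ (3 : ℝ) by norm_num, ← Real.rpow_mul (by norm_num)]
      norm_num
    rwa [h9] at h8
  have h8 : N ^ ((2 : ℝ) / 3) / 25 ≤ Y ^ 2 := by
    rw [h5, h6]
    exact div_le_div_of_nonneg_left (by positivity) (by positivity) h7
  have h9 : (Y / 2) ^ 2 = Y ^ 2 / 4 := by ring
  rw [h9] at h4
  linarith

end Pool.Agent.TH867.EC
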