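import Pool.Agent.TH867.EC.TwistLow
import Pool.Agent.TH867.EC.Semi
import Pool.Agent.TH867.SB.Final

/-! Elliptic curves over `ℚ` with full rational 2-torsion of bounded conductor: bounds which are
uniform in the size of the discriminant (helper867). -/

set_option autoImplicit false

namespace Pool.Agent.TH867.EC

open Finset Pool.Agent.TH867.SR Pool.Agent.H925R.Szpiro

/-- the pair form of the main count, all heights -/
theorem pairs_all (ε : ℝ) (hε : 0 < ε) : ∃ D : ℝ, 0 < D ∧ ∀ X H : ℝ, 1 ≤ X → 1 ≤ H →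
    ∀ T : Finset (ℕ × ℕ), (∀ p ∈ T, 0 < p.1 ∧ p.1 ≤ p.2 ∧ Nat.Coprime p.1 p.2 ∧
      ((radN (p.1 * p.2 * (p.1 + p.2)) : ℕ) : ℝ) ≤ X ∧ Real.log ((p.1 + p.2 : ℕ) : ℝ) ≤ H) →
    (T.card : ℝ) ≤ D * X ^ (2 / 3 + ε) := by
  classical
  obtain ⟨D, hD, h⟩ := Pool.Agent.TH867.SB.all_heights ε hε
  refine ⟨D, hD, fun X H hX hH T hT => ?_⟩
  have h1 := h X hX (T.image toT) (fun t ht => by
    obtain ⟨p, hp, rfl⟩ := Finset.mem_image.1 ht
    obtain ⟨h1, h2, h3, h4, h5⟩ := hT p hp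
    have ht : Tr (toT p) := ⟨h1, h2, h3, rfl⟩
    refine ⟨ht, ?_⟩
    rw [← rr_sum ht, ← log_prod_primes fun q hq => Nat.prime_of_mem_primeFactors hq]
    refine Real.log_le_log ?_ h4
    exact_mod_cast Finset.prod_pos fun q hq => (Nat.prime_of_mem_primeFactors hq).pos)
  rwa [Finset.card_image_of_injective _ toT_inj] at h1

/-- an increasing union of sets with bounded cardinality -/
theorem union_card {α : Type*} {S : ℝ → Set α} {B : ℝ}
    (hmono : ∀ H H' : ℝ, H ≤ H' → S H ⊆ S H') (hB : ∀ H : ℝ, 1 ≤ H → (S H).Finite ∧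
      ((S H).ncard : ℝ) ≤ B) : (⋃ H, S H).Finite ∧ ((⋃ H, S H).ncard : ℝ) ≤ B := by
  classical
  have key : ∀ F : Finset α, (F : Set α) ⊆ ⋃ H, S H → (F.card : ℝ) ≤ B := by
    intro F hF
    have h1 : ∃ H : ℝ, 1 ≤ H ∧ (F : Set α) ⊆ S H := by
      have h2 : ∀ x ∈ F, ∃ H, x ∈ S H := fun x hx => Set.mem_iUnion.1 (hF hx)
      choose! f hf using h2
      rcases F.eq_empty_or_nonempty with rfl | hne
      · exact ⟨1, le_rfl, by simp⟩
      · obtain ⟨x0, hx0, hmax⟩ := Finset.exists_max_image F f hne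
        refine ⟨max 1 (f x0), le_max_left _ _, fun x hx => ?_⟩
        exact hmono _ _ ((hmax x hx).trans (le_max_right _ _)) (hf x hx)
    obtain ⟨H, hH1, hH⟩ := h1
    obtain ⟨h3, h4⟩ := hB H hH1
    have h5 := Set.ncard_le_ncard hH h3
    rw [Set.ncard_coe_finset] at h5
    exact le_trans (by exact_mod_cast h5) h4
  have hfin : (⋃ H, S H).Finite := by
    by_contra hinf
    obtain ⟨F, hF, hFc⟩ := Set.Infinite.exists_subset_card_eq hinf (⌊B⌋₊ + 1)
    have h1 := key F hF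
    rw [hFc] at h1
    have h2 := Nat.lt_floor_add_one B
    push_cast at h1
    linarith
  refine ⟨hfin, ?_⟩
  have h1 := key hfin.toFinset (by simp)
  rwa [← Set.ncard_eq_toFinset_card _ hfin] at h1

/-- the upper bound -/
theorem cur_all (ε : ℝ) (hε : 0 < ε) : ∃ C : ℝ, 0 < C ∧ ∀ N H : ℝ, 1 ≤ N → 1 ≤ H →
    (Cur N H).Finite ∧ ((Cur N H).ncard : ℝ) ≤ C * N ^ (2 / 3 + ε) := by
  classical
  obtain ⟨D, hD, hup⟩ := pairs_all ε hε
  refine ⟨4 * (D * 2 ^ (2 / 3 + ε)), by positivity, fun N H hN hH => ?_⟩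
  obtain ⟨B, hB⟩ : ∃ B : ℕ, B = ⌊Real.exp (H / 4 + 2)⌋₊ := ⟨_, rfl⟩
  set T : Finset (ℕ × ℕ) := ((range (B + 1)) ×ˢ (range (B + 1))).filter (fun p =>
    0 < p.1 ∧ p.1 ≤ p.2 ∧ Nat.Coprime p.1 p.2 ∧
      ((radN (p.1 * p.2 * (p.1 + p.2)) : ℕ) : ℝ) ≤ 2 * N ∧
      Real.log ((p.1 + p.2 : ℕ) : ℝ) ≤ H / 4 + 2) with hT
  set A : Finset (ℕ × ℤ) := ({1, 2} : Finset ℕ) ×ˢ ({1, -1} : Finset ℤ) with hA
  have hAcard : A.card ≤ 4 := by
    rw [hA, card_product]
    have h1 : ({1, 2} : Finset ℕ).card ≤ 2 := card_le_two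
    have h2 : ({1, -1} : Finset ℤ).card ≤ 2 := card_le_two
    nlinarith
  have hsub : Cur N H ⊆ (((A ×ˢ T).image inv : Finset (ℤ × ℤ)) : Set (ℤ × ℤ)) := by
    rintro q ⟨W, hΔ, hc, hf, rfl, hN', hH'⟩
    obtain ⟨g, u', v', hg, hu', hv', hcop', E4', ED'⟩ := semi_pair W hΔ hc hf
    -- order the pair
    obtain ⟨u, v, hu, hv, huv, hcop, E4, ED⟩ : ∃ u v : ℕ, 0 < u ∧ 0 < v ∧ u ≤ v ∧
        Nat.Coprime u v ∧ W.c₄ = (g : ℤ) ^ 2 * (u ^ 2 + u * v + v ^ 2) ∧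
        256 * W.Δ = (g : ℤ) ^ 6 * (u * v * (u + v)) ^ 2 := by
      rcases le_total u' v' with h | h
      · exact ⟨u', v', hu', hv', h, hcop', E4', ED'⟩
      · refine ⟨v', u', hv', hu', h, hcop'.symm, ?_, ?_⟩
        · rw [E4']; ring
        · rw [ED']; ring
    rw [mem_coe, mem_image]
    obtain ⟨s, hs, hs6⟩ : ∃ s : ℤ, s ∈ ({1, -1} : Finset ℤ) ∧ W.c₆ = s * |W.c₆| := by
      rcases le_total 0 W.c₆ with h0 | h0
      · exact ⟨1, by simp, by rw [abs_of_nonneg h0]; ring⟩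
      · exact ⟨-1, by simp, by rw [abs_of_nonpos h0]; ring⟩
    refine ⟨((g, s), (u, v)), ?_, ?_⟩
    · rw [mem_product]
      constructor
      · rw [hA, mem_product]
        refine ⟨?_, hs⟩
        rcases hg with rfl | rfl <;> simp
      · have hlog : Real.log ((u + v : ℕ) : ℝ) ≤ H / 4 + 2 :=
          log_sum_le hg hu hv hΔ ED hH'
        have hle : u + v ≤ B := by
          rw [hB]
          refine Nat.le_floor ?_
          rw [← Real.log_le_iff_le_exp (by exact_mod_cast (by omega : 0 < u + v))]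
          exact hlog
        rw [hT, mem_filter, mem_product, mem_range, mem_range]
        refine ⟨⟨by simp only; omega, by simp only; omega⟩, hu, huv, hcop, ?_, hlog⟩
        simp only
        have hD' : 256 * W.Δ = (g : ℤ) ^ 6 * ((u * v * (u + v) : ℕ) : ℤ) ^ 2 := by
          rw [ED]; push_cast; ring
        have hr : ((radN (u * v * (u + v)) : ℕ) : ℝ) ≤ 2 * (cond W : ℝ) := by
          exact_mod_cast rad_le_two_cond W hΔ g _ hD'
        linarith
    · unfold inv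
      simp only
      refine Prod.ext E4.symm ?_
      simp only
      rw [← E4]
      have hΔ' : ((g : ℤ) ^ 6 * ((u : ℤ) * v * (u + v)) ^ 2) / 256 = W.Δ := by
        rw [← ED]
        exact Int.mul_ediv_cancel_left _ (by norm_num)
      rw [hΔ']
      have hrel := W.c_relation
      have h7 : W.c₄ ^ 3 - 1728 * W.Δ = |W.c₆| ^ 2 := by rw [sq_abs]; linarith
      have h8 : (|W.c₆| ^ 2).toNat = (W.c₆.natAbs) ^ 2 := by
        rw [Int.abs_eq_natAbs, ← Nat.cast_pow, Int.toNat_natCast]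
      rw [h7, h8, Nat.sqrt_eq', ← Int.abs_eq_natAbs]
      exact hs6.symm
  refine ⟨Set.Finite.subset (Finset.finite_toSet _) hsub, ?_⟩
  have h1 : (Cur N H).ncard ≤ ((A ×ˢ T).image inv).card := by
    rw [← Set.ncard_coe_finset]
    exact Set.ncard_le_ncard hsub (Finset.finite_toSet _)
  have h2 : ((A ×ˢ T).image inv).card ≤ 4 * T.card :=
    card_image_le.trans (by rw [card_product]; exact Nat.mul_le_mul_right _ hAcard)
  have h3 : ((Cur N H).ncard : ℝ) ≤ 4 * T.card := by exact_mod_cast h1.trans h2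
  have h4 := hup (2 * N) (H / 4 + 2) (by linarith) (by linarith) T (fun p hp =>
    (mem_filter.1 hp).2)
  rw [Real.mul_rpow (by norm_num) (by linarith)] at h4
  have hNp : 0 ≤ N ^ (2 / 3 + ε) := by positivity
  calc ((Cur N H).ncard : ℝ) ≤ 4 * T.card := h3
    _ ≤ 4 * (D * (2 ^ (2 / 3 + ε) * N ^ (2 / 3 + ε))) := by linarith
    _ = _ := by ring

/-- the upper bound -/
theorem curS_all (ε : ℝ) (hε : 0 < ε) : ∃ C : ℝ, 0 < C ∧ ∀ N H : ℝ, 1 ≤ N → 1 ≤ H →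
    (CurS N H).Finite ∧ ((CurS N H).ncard : ℝ) ≤ C * N ^ (2 / 3 + ε) := by
  classical
  obtain ⟨e, he⟩ : ∃ e : ℝ, e = ε / 3 := ⟨_, rfl⟩
  have he0 : 0 < e := by rw [he]; positivity
  obtain ⟨D1, hD1, hup⟩ := pairs_all e he0
  obtain ⟨D2, hD2, hsm⟩ := smooth_count e he0
  obtain ⟨Z, hZ⟩ : ∃ Z : ℝ, Z = ∑' n : ℕ, ((n : ℝ) ^ ((4 : ℝ) / 3))⁻¹ := ⟨_, rfl⟩
  have hZ0 : 0 ≤ Z := by rw [hZ]; exact tsum_nonneg fun n => by positivity
  refine ⟨12 * (D1 * D2 * Z * 6 ^ (2 / 3 + ε)) + 1, by positivity, fun N H hN hH => ?_⟩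
  obtain ⟨X, hX⟩ : ∃ X : ℝ, X = 6 * N := ⟨_, rfl⟩
  have hX1 : 1 ≤ X := by rw [hX]; linarith
  have hX0 : 0 < X := by linarith
  obtain ⟨H', hH'⟩ : ∃ H' : ℝ, H' = H / 4 + 2 := ⟨_, rfl⟩
  have hH'1 : 1 ≤ H' := by rw [hH']; linarith
  obtain ⟨B, hB⟩ : ∃ B : ℕ, B = ⌊Real.exp H'⌋₊ := ⟨_, rfl⟩
  obtain ⟨M, hM⟩ : ∃ M : ℕ, M = ⌊Real.sqrt X⌋₊ := ⟨_, rfl⟩
  obtain ⟨B1, hB1⟩ : ∃ B1 : ℕ, B1 = ⌊X⌋₊ := ⟨_, rfl⟩
  have hB11 : 1 ≤ B1 := by rw [hB1]; exact Nat.le_floor (by exact_mod_cast hX1)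
  set T : ℕ → Finset (ℕ × ℕ) := fun g => ((range (B + 1)) ×ˢ (range (B + 1))).filter (fun p =>
    0 < p.1 ∧ p.1 ≤ p.2 ∧ Nat.Coprime p.1 p.2 ∧
      ((radN (p.1 * p.2 * (p.1 + p.2)) : ℕ) : ℝ) ≤ X / (g : ℝ) ^ 2 ∧
      Real.log ((p.1 + p.2 : ℕ) : ℝ) ≤ H') with hT
  set G : Finset (ℕ × (ℕ × (ℕ × ℕ))) := (Icc 1 M).biUnion (fun g => (T g).biUnion (fun p =>
    ((Icc 1 B1).filter fun d => d.primeFactors ⊆
      (radN (p.1 * p.2 * (p.1 + p.2))).primeFactors).image (fun d => (d, (g, p))))) with hG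
  set A : Finset (ℤ × ℕ × ℕ) := ({1, -1} : Finset ℤ) ×ˢ (range 2 ×ˢ range 3) with hA
  have hAcard : A.card ≤ 12 := by
    rw [hA, card_product, card_product, card_range, card_range]
    have h2 : ({1, -1} : Finset ℤ).card ≤ 2 := card_le_two
    omega
  have hsub : CurS N H ⊆ (((A ×ˢ G).image mdl' : Finset (ℤ × ℤ)) : Set (ℤ × ℤ)) := by
    rintro ⟨a, b⟩ ⟨hmin, hf, hN', hH''⟩
    simp only at hmin hf hN' hH''
    obtain ⟨i, j, g₁, g₂, u', v', hi, hj, hg1, hg2, hu', hv', hcop', hdvd', h3a', hD', hcond'⟩ :=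
      twist_pair a b hmin hf
    obtain ⟨u, v, hu, hv, huv, hcop, hdvd, h3a, hD, hcond⟩ : ∃ u v : ℕ, 0 < u ∧ 0 < v ∧ u ≤ v ∧
        Nat.Coprime u v ∧ g₁ ∣ u * v * (u + v) ∧
        3 * a = ((2 ^ i * 3 ^ j * (g₁ * g₂) : ℕ) : ℤ) ^ 2 * (u ^ 2 + u * v + v ^ 2) ∧
        D a b = ((2 ^ i * 3 ^ j * (g₁ * g₂) : ℕ) : ℤ) ^ 6 * (u * v * (u + v)) ^ 2 ∧
        radN (u * v * (u + v)) * (g₁ * g₂) * g₂ ≤ 6 * condS a b := by
      have e0 : v' * u' * (v' + u') = u' * v' * (u' + v') := by ring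
      rcases le_total u' v' with h | h
      · exact ⟨u', v', hu', hv', h, hcop', hdvd', h3a', hD', hcond'⟩
      · refine ⟨v', u', hv', hu', h, hcop'.symm, by rw [e0]; exact hdvd', ?_, ?_,
          by rw [e0]; exact hcond'⟩
        · rw [h3a']; ring
        · rw [hD']; ring
    obtain ⟨g, hg⟩ : ∃ g : ℕ, g = 2 ^ i * 3 ^ j * (g₁ * g₂) := ⟨_, rfl⟩
    rw [← hg] at h3a hD
    have hg0 : 1 ≤ g := by
      rw [hg]
      exact Nat.mul_pos (Nat.mul_pos (by positivity) (by positivity)) (Nat.mul_pos hg1 hg2)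
    obtain ⟨R, hR⟩ : ∃ R : ℕ, R = radN (u * v * (u + v)) := ⟨_, rfl⟩
    rw [← hR] at hcond
    have hR1 : 1 ≤ R := by
      rw [hR]
      exact Finset.prod_pos fun q hq => (Nat.prime_of_mem_primeFactors hq).pos
    have hcR : (R : ℝ) * ((g₁ : ℝ) * g₂) * g₂ ≤ X := by
      have : (R : ℝ) * ((g₁ : ℝ) * g₂) * g₂ ≤ 6 * (condS a b : ℝ) := by exact_mod_cast hcond
      rw [hX]
      linarith
    have r1 : (1 : ℝ) ≤ R := by exact_mod_cast hR1
    have r2 : (1 : ℝ) ≤ g₁ := by exact_mod_cast hg1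
    have r3 : (1 : ℝ) ≤ g₂ := by exact_mod_cast hg2
    have hRg : (R : ℝ) * (g₂ : ℝ) ^ 2 ≤ X := by
      have : (R : ℝ) * (g₂ : ℝ) ^ 2 ≤ (R : ℝ) * ((g₁ : ℝ) * g₂) * g₂ := by
        have h0 : 0 ≤ (R : ℝ) * (g₂ : ℝ) ^ 2 := by positivity
        calc (R : ℝ) * (g₂ : ℝ) ^ 2 = 1 * ((R : ℝ) * (g₂ : ℝ) ^ 2) := by ring
          _ ≤ (g₁ : ℝ) * ((R : ℝ) * (g₂ : ℝ) ^ 2) := mul_le_mul_of_nonneg_right r2 h0
          _ = _ := by ring
      linarith
    have hg2X : (g₂ : ℝ) ^ 2 ≤ X := by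
      have : (g₂ : ℝ) ^ 2 ≤ (R : ℝ) * (g₂ : ℝ) ^ 2 := by
        have h0 : 0 ≤ (g₂ : ℝ) ^ 2 := by positivity
        nlinarith
      linarith
    have hg1X : (g₁ : ℝ) ≤ X := by
      have : (g₁ : ℝ) ≤ (R : ℝ) * ((g₁ : ℝ) * g₂) * g₂ := by
        calc (g₁ : ℝ) = 1 * ((g₁ : ℝ) * 1) * 1 := by ring
          _ ≤ (R : ℝ) * ((g₁ : ℝ) * g₂) * g₂ := by gcongr
      linarith
    rw [mem_coe, mem_image]
    obtain ⟨s, hs, hsb⟩ : ∃ s : ℤ, s ∈ ({1, -1} : Finset ℤ) ∧ b = s * |b| := by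
      rcases le_total 0 b with h0 | h0
      · exact ⟨1, by simp, by rw [abs_of_nonneg h0]; ring⟩
      · exact ⟨-1, by simp, by rw [abs_of_nonpos h0]; ring⟩
    refine ⟨((s, i, j), (g₁, (g₂, (u, v)))), ?_, ?_⟩
    · rw [mem_product]
      refine ⟨?_, ?_⟩
      · rw [hA, mem_product, mem_product]
        exact ⟨hs, mem_range.mpr (by simp only; omega), mem_range.mpr (by simp only; omega)⟩
      rw [hG, mem_biUnion]
      refine ⟨g₂, mem_Icc.2 ⟨hg2, ?_⟩, ?_⟩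
      · rw [hM]
        exact Nat.le_floor (Real.le_sqrt_of_sq_le hg2X)
      rw [mem_biUnion]
      refine ⟨(u, v), ?_, mem_image.2 ⟨g₁, mem_filter.2 ⟨mem_Icc.2 ⟨hg1, ?_⟩, ?_⟩, rfl⟩⟩
      · have hlog : Real.log ((u + v : ℕ) : ℝ) ≤ H' := by
          rw [hH']
          exact log_sum_le2 hg0 hu hv hD hH''
        have hle : u + v ≤ B := by
          rw [hB]
          refine Nat.le_floor ?_
          rw [← Real.log_le_iff_le_exp (by exact_mod_cast (by omega : 0 < u + v))]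
          exact hlog
        rw [hT, mem_filter, mem_product, mem_range, mem_range]
        refine ⟨⟨by simp only; omega, by simp only; omega⟩, hu, huv, hcop, ?_, hlog⟩
        simp only
        rw [← hR, le_div_iff₀ (by positivity)]
        exact hRg
      · rw [hB1]
        exact Nat.le_floor hg1X
      · show g₁.primeFactors ⊆ (radN (u * v * (u + v))).primeFactors
        have hn0 : u * v * (u + v) ≠ 0 := by positivity
        rw [radN, Nat.primeFactors_prod fun q hq => Nat.prime_of_mem_primeFactors hq]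
        exact Nat.primeFactors_mono hdvd hn0
    · unfold mdl'
      simp only
      rw [← hg]
      have e1 : ((g : ℕ) : ℤ) ^ 2 * ((u : ℤ) ^ 2 + u * v + (v : ℤ) ^ 2) / 3 = a := by
        rw [← h3a]
        exact Int.mul_ediv_cancel_left _ (by norm_num)
      have e2 : ((g : ℕ) : ℤ) ^ 6 * ((u : ℤ) * v * (u + v)) ^ 2 = D a b := hD.symm
      rw [e1, e2]
      refine Prod.ext rfl ?_
      simp only
      have e3 : (4 * a ^ 3 - D a b) / 27 = |b| ^ 2 := by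
        have : 4 * a ^ 3 - D a b = 27 * b ^ 2 := by unfold D; ring
        rw [this, sq_abs]
        exact Int.mul_ediv_cancel_left _ (by norm_num)
      have e4 : (|b| ^ 2).toNat = (b.natAbs) ^ 2 := by
        rw [Int.abs_eq_natAbs, ← Nat.cast_pow, Int.toNat_natCast]
      rw [e3, e4, Nat.sqrt_eq', ← Int.abs_eq_natAbs]
      exact hsb.symm
  refine ⟨Set.Finite.subset (Finset.finite_toSet _) hsub, ?_⟩
  have c1 : (CurS N H).ncard ≤ ((A ×ˢ G).image mdl').card := by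
    rw [← Set.ncard_coe_finset]
    exact Set.ncard_le_ncard hsub (Finset.finite_toSet _)
  have c2 : ((A ×ˢ G).image mdl').card ≤ 12 * G.card :=
    card_image_le.trans (by rw [card_product]; exact Nat.mul_le_mul_right _ hAcard)
  have c3 : ((CurS N H).ncard : ℝ) ≤ 12 * G.card := by exact_mod_cast c1.trans c2
  -- the divisors
  have c4 : ∀ g ∈ Icc 1 M, (((T g).biUnion (fun p =>
      ((Icc 1 B1).filter fun d => d.primeFactors ⊆
        (radN (p.1 * p.2 * (p.1 + p.2))).primeFactors).image (fun d => (d, (g, p))))).card : ℝ) ≤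
      (D1 * D2 * X ^ (2 / 3 + ε)) * ((g : ℝ) ^ (2 * (2 / 3 + e)))⁻¹ := by
    intro g hg
    obtain ⟨hg1, hgM⟩ := mem_Icc.1 hg
    have hgr : (1 : ℝ) ≤ g := by exact_mod_cast hg1
    have hgX : (g : ℝ) ^ 2 ≤ X := by
      have h1 : (g : ℝ) ≤ Real.sqrt X := by
        have h2 : (g : ℝ) ≤ (M : ℝ) := by exact_mod_cast hgM
        refine h2.trans ?_
        rw [hM]
        exact Nat.floor_le (Real.sqrt_nonneg _)
      calc (g : ℝ) ^ 2 ≤ (Real.sqrt X) ^ 2 := pow_le_pow_left₀ (by linarith) h1 2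
        _ = X := Real.sq_sqrt hX0.le
    have h1 : (1 : ℝ) ≤ X / (g : ℝ) ^ 2 := by
      rw [le_div_iff₀ (by positivity)]
      linarith
    have h2 := hup (X / (g : ℝ) ^ 2) H' h1 hH'1 (T g) (fun p hp => (mem_filter.1 hp).2)
    have h3 : ∀ p ∈ T g, ((((Icc 1 B1).filter fun d => d.primeFactors ⊆
        (radN (p.1 * p.2 * (p.1 + p.2))).primeFactors).image (fun d => (d, (g, p)))).card : ℝ) ≤
        D2 * X ^ e * X ^ e := by
      intro p hp
      obtain ⟨_, _, _, _, q4, _⟩ := mem_filter.1 hp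
      have hRX : ((radN (p.1 * p.2 * (p.1 + p.2)) : ℕ) : ℝ) ≤ X := by
        refine q4.trans (div_le_self hX0.le ?_)
        exact one_le_pow₀ hgr
      have hRpos : 1 ≤ radN (p.1 * p.2 * (p.1 + p.2)) :=
        Finset.prod_pos fun q hq => (Nat.prime_of_mem_primeFactors hq).pos
      have h4 := hsm B1 (radN (p.1 * p.2 * (p.1 + p.2))) hB11 hRpos
      have h5 : ((((Icc 1 B1).filter fun d => d.primeFactors ⊆
        (radN (p.1 * p.2 * (p.1 + p.2))).primeFactors).image (fun d => (d, (g, p)))).card : ℝ) ≤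
        ((((Icc 1 B1).filter fun d => d.primeFactors ⊆
        (radN (p.1 * p.2 * (p.1 + p.2))).primeFactors)).card : ℝ) := by
        exact_mod_cast card_image_le
      refine h5.trans (h4.trans ?_)
      have hBX : (B1 : ℝ) ≤ X := by rw [hB1]; exact Nat.floor_le hX0.le
      refine mul_le_mul ?_ (Real.rpow_le_rpow (Nat.cast_nonneg _) hRX he0.le) (by positivity)
        (by positivity)
      exact mul_le_mul_of_nonneg_left (Real.rpow_le_rpow (Nat.cast_nonneg _) hBX he0.le) hD2.le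
    have h6 : (((T g).biUnion (fun p =>
      ((Icc 1 B1).filter fun d => d.primeFactors ⊆
        (radN (p.1 * p.2 * (p.1 + p.2))).primeFactors).image (fun d => (d, (g, p))))).card : ℝ) ≤
        ((T g).card : ℝ) * (D2 * X ^ e * X ^ e) := by
      have h7 : (((T g).biUnion (fun p =>
        ((Icc 1 B1).filter fun d => d.primeFactors ⊆
        (radN (p.1 * p.2 * (p.1 + p.2))).primeFactors).image (fun d => (d, (g, p))))).card : ℝ) ≤
        ∑ p ∈ T g, ((((Icc 1 B1).filter fun d => d.primeFactors ⊆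
        (radN (p.1 * p.2 * (p.1 + p.2))).primeFactors).image (fun d => (d, (g, p)))).card : ℝ) := by
        exact_mod_cast card_biUnion_le
      refine h7.trans ((Finset.sum_le_sum h3).trans ?_)
      rw [Finset.sum_const, nsmul_eq_mul]
    refine h6.trans ?_
    have h8 : (X / (g : ℝ) ^ 2) ^ (2 / 3 + e) =
        X ^ (2 / 3 + e) * ((g : ℝ) ^ (2 * (2 / 3 + e)))⁻¹ := by
      rw [Real.div_rpow hX0.le (by positivity), ← Real.rpow_natCast (g : ℝ) 2,
        ← Real.rpow_mul (by linarith)]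
      push_cast
      rw [div_eq_mul_inv]
    rw [h8] at h2
    have h9 : X ^ (2 / 3 + e) * X ^ e * X ^ e = X ^ (2 / 3 + ε) := by
      rw [← Real.rpow_add hX0, ← Real.rpow_add hX0]
      congr 1
      rw [he]; ring
    calc ((T g).card : ℝ) * (D2 * X ^ e * X ^ e) ≤
        (D1 * (X ^ (2 / 3 + e) * ((g : ℝ) ^ (2 * (2 / 3 + e)))⁻¹)) * (D2 * X ^ e * X ^ e) :=
          mul_le_mul_of_nonneg_right h2 (by positivity)
      _ = (D1 * D2 * (X ^ (2 / 3 + e) * X ^ e * X ^ e)) *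
          ((g : ℝ) ^ (2 * (2 / 3 + e)))⁻¹ := by ring
      _ = _ := by rw [h9]
  have c5 : (G.card : ℝ) ≤ (D1 * D2 * X ^ (2 / 3 + ε)) * Z := by
    have h1 : (G.card : ℝ) ≤ ∑ g ∈ Icc 1 M, (((T g).biUnion (fun p =>
      ((Icc 1 B1).filter fun d => d.primeFactors ⊆
        (radN (p.1 * p.2 * (p.1 + p.2))).primeFactors).image (fun d => (d, (g, p))))).card : ℝ) := by
      exact_mod_cast card_biUnion_le
    refine h1.trans ((Finset.sum_le_sum c4).trans ?_)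
    rw [← Finset.mul_sum]
    refine mul_le_mul_of_nonneg_left ?_ (by positivity)
    rw [hZ]
    exact sum_rpow_le M (by linarith)
  have hXN : X ^ (2 / 3 + ε) = 6 ^ (2 / 3 + ε) * N ^ (2 / 3 + ε) := by
    rw [hX, Real.mul_rpow (by norm_num) (by linarith)]
  have hNp : 0 ≤ N ^ (2 / 3 + ε) := by positivity
  calc ((CurS N H).ncard : ℝ) ≤ 12 * G.card := c3
    _ ≤ 12 * ((D1 * D2 * X ^ (2 / 3 + ε)) * Z) := by linarith
    _ = 12 * (D1 * D2 * Z * 6 ^ (2 / 3 + ε)) * N ^ (2 / 3 + ε) := by rw [hXN]; ring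
    _ ≤ _ := mul_le_mul_of_nonneg_right (by linarith) hNp

end Pool.Agent.TH867.EC
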